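import Pool.Agent.Run7.h745.RV.Fin
import Pool.Agent.Run7.h547.RV.TR
import Pool.Agent.Run7.h646.RV.SEPSF
import Pool.Agent.Run7.h973.RV.SIMPLE
import Pool.Agent.Run7.h973.RV.TRP
import Pool.Agent.Run7.h298.RV.ACT

/-!
# MP_81d4f5_an, Q1: yes

There is a simple separable unital stably finite C*-algebra with a tracial state and positive radius of
comparison with an action of `ℤ/2` which has the weak tracial Rokhlin property and leaves all tracial
states invariant.

Definitions used: `TracialState`, `QT`, `radComp` (with `CuntzBelow`, `QT.dimFn`, `RComparison`) in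
`Pool.Agent.Run7.h745.Defs`; `StablyFinite`, `Action`, `WeakTracialRokhlinProperty` (with `Pos`,
`Below`, `Large`), `InvariantTraces` in `Pool.Agent.Run7.h745.RV.Defs`.

The algebra is a Villadsen algebra of the second kind on two copies of a product of projective spaces;
the action changes the two copies; it even has the Rokhlin property, and the tracial state is unique.
-/

set_option autoImplicit false

namespace Pool.Agent.Results.MP_81d4f5_an.WeakTracialRokhlin

open Run7.h745 Run7.h745.RV

/-- There are a simple separable unital stably finite C*-algebra `A` with `T(A) ≠ ∅` and `rc A > 0` and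
an action of the group with two elements on `A` with the weak tracial Rokhlin property such that all
tracial states of `A` are invariant. -/
theorem result :
    ∃ (A : Type) (_ : CStarAlgebra A) (α : Action (Multiplicative (ZMod 2)) A),
      IsSimpleRing A ∧ TopologicalSpace.SeparableSpace A ∧ StablyFinite A ∧
      Nonempty (TracialState A) ∧ 0 < radComp A ∧ WeakTracialRokhlinProperty α ∧
      InvariantTraces α := by
  obtain ⟨A, hA, α, h1, h2, h3, ⟨τ₀, -, h4⟩, h5, h6⟩ :=
    exists_system Run7.h973.RV.t_SIMPLE Run7.h646.RV.t_SEP Run7.h646.RV.t_SF Run7.h547.RV.t_UT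
      Run7.h973.RV.t_TRP Run7.h547.RV.t_UNIQ Run7.h547.RV.t_EX Run7.h298.RV.t_ACT
  refine ⟨A, hA, α, h1, h2, h3, ⟨τ₀⟩, h5, h6.weak, fun τ g a => ?_⟩
  have h7 : AH.ts_comp τ (α.hom g) = τ := by
    rw [h4 τ trivial]; exact h4 _ trivial
  have h8 := AH.ts_comp_val τ (α.hom g) a
  rw [h7] at h8
  exact h8.symm

end Pool.Agent.Results.MP_81d4f5_an.WeakTracialRokhlin
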